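import Mathlib
import Pool.Agent.Helper9.FA.ZDefs

/-!
# The recursion of the weights
-/

namespace Pool.Agent.Helper9.FA

open Finset
open Pool.Agent.Helper9.Kashaev Pool.Agent.Helper9.TG
open Pool.Agent.Helper9 (TB.lam TB.bb TB.sf)

private lemma sf_s {N : ℕ} (n : ℕ) : TB.sf N (n + 1) = TB.sf N n * sn N (n + 1) := by
  rw [Pool.Agent.Helper9.TB.sf_succ]
  congr 1
  unfold Pool.Agent.Helper9.TB.sb sn
  push_cast
  ring_nf

private lemma sf_n {N n : ℕ} (h : n < N) : TB.sf N n ≠ 0 :=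
  (Pool.Agent.Helper9.TB.sf_pos (by exact_mod_cast h)).ne'

private lemma sn_ne {N n : ℕ} (h0 : 0 < n) (h : n < N) : sn N n ≠ 0 :=
  (sn_pos (by exact_mod_cast h0) (by exact_mod_cast h)).ne'

private lemma sn_z (N : ℕ) : sn N 0 = 0 := by simp [sn]

private lemma sn_refl {N : ℕ} (hN : 2 ≤ N) (x : ℤ) : sn N (N - x) = sn N x := by
  unfold sn
  have : (N : ℝ) ≠ 0 := by positivity
  have e : Real.pi * (((N : ℤ) - x : ℤ) : ℝ) / N = Real.pi - Real.pi * x / N := by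
    push_cast; field_simp
  rw [e, Real.sin_pi_sub]

private lemma sn_neg (N : ℕ) (x : ℤ) : sn N (-x) = - sn N x := by
  unfold sn
  rw [show Real.pi * (((-x : ℤ) : ℝ)) / N = -(Real.pi * x / N) by push_cast; ring, Real.sin_neg]
  ring

/-- `bn (m + 1) l` and `bn m l` -/
private lemma bn_up {N m l : ℕ} (hm : m + 1 < N) :
    bn N (m + 1) l * sn N ((m : ℤ) + 1 - l) = bn N m l * sn N ((m : ℤ) + 1) := by
  unfold bn
  rcases Nat.lt_or_ge m l with h | h
  · rw [if_neg (show ¬ l ≤ m by omega)]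
    rcases Nat.eq_or_lt_of_le h with h1 | h1
    · rw [← h1, show (m : ℤ) + 1 - (m.succ : ℕ) = 0 by push_cast; ring, sn_z]; ring
    · rw [if_neg (by omega)]; ring
  · rw [if_pos h, if_pos (by omega), sf_s, show m + 1 - l = (m - l) + 1 by omega, sf_s,
      show ((m - l : ℕ) : ℤ) + 1 = (m : ℤ) + 1 - l by push_cast [Nat.cast_sub h]; ring]
    have h1 : TB.sf N l ≠ 0 := sf_n (by omega)
    have h2 : TB.sf N (m - l) ≠ 0 := sf_n (by omega)
    have h3 : sn N ((m : ℤ) + 1 - l) ≠ 0 := by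
      have := sn_ne (N := N) (n := m + 1 - l) (by omega) (by omega)
      rwa [show ((m + 1 - l : ℕ) : ℤ) = (m : ℤ) + 1 - l by omega] at this
    field_simp

/-- `bn (m + 1) l` and `bn m (l - 1)` -/
private lemma bn_up' {N m l : ℕ} (hm : m + 1 < N) :
    bn N (m + 1) l * sn N l = (if 1 ≤ l then bn N m (l - 1) else 0) * sn N ((m : ℤ) + 1) := by
  rcases l with _ | l
  · rw [if_neg (by omega)]; simp [sn_z]
  rw [if_pos (by omega), Nat.add_sub_cancel]
  unfold bn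
  rcases Nat.lt_or_ge m l with h | h
  · rw [if_neg (by omega), if_neg (by omega)]; ring
  · rw [if_pos h, if_pos (by omega), sf_s, show m + 1 - (l + 1) = m - l by omega, sf_s,
      show ((l + 1 : ℕ) : ℤ) = (l : ℤ) + 1 by push_cast; ring]
    have h1 : TB.sf N l ≠ 0 := sf_n (by omega)
    have h2 : TB.sf N (m - l) ≠ 0 := sf_n (by omega)
    have h3 : sn N ((l : ℤ) + 1) ≠ 0 := by
      have := sn_ne (N := N) (n := l + 1) (by omega) (by omega)
      rwa [show ((l + 1 : ℕ) : ℤ) = (l : ℤ) + 1 by push_cast; ring] at this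
    field_simp

/-- `bn M (u + 1)` and `bn M u` -/
private lemma bn_next {N M u : ℕ} (hM : M < N) :
    bn N M (u + 1) * sn N ((u : ℤ) + 1) = bn N M u * sn N ((M : ℤ) - u) := by
  unfold bn
  rcases Nat.lt_or_ge M (u + 1) with h | h
  · rw [if_neg (by omega)]
    rcases Nat.eq_or_lt_of_le (show M ≤ u by omega) with h1 | h1
    · rw [h1, sub_self, sn_z]; ring
    · rw [if_neg (by omega)]; ring
  · rw [if_pos h, if_pos (by omega), sf_s, show M - u = (M - (u + 1)) + 1 by omega, sf_s,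
      show ((M - (u + 1) : ℕ) : ℤ) + 1 = (M : ℤ) - u by push_cast [Nat.cast_sub h]; ring]
    have h1 : TB.sf N u ≠ 0 := sf_n (by omega)
    have h2 : TB.sf N (M - (u + 1)) ≠ 0 := sf_n (by omega)
    have h3 : sn N ((u : ℤ) + 1) ≠ 0 := by
      have := sn_ne (N := N) (n := u + 1) (by omega) (by omega)
      rwa [show ((u + 1 : ℕ) : ℤ) = (u : ℤ) + 1 by push_cast; ring] at this
    have h4 : sn N ((M : ℤ) - u) ≠ 0 := by
      have := sn_ne (N := N) (n := M - u) (by omega) (by omega)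
      rwa [show ((M - u : ℕ) : ℤ) = (M : ℤ) - u by omega] at this
    field_simp

private lemma trigC {A L R B : ℂ} (hA : A ≠ 0) (hL : L ≠ 0) (hR : R ≠ 0) (hB : B ≠ 0) :
    (A - A⁻¹) ^ 2 * (A * B - (A * B)⁻¹) =
      (L * R * B * A - (L * R * B * A)⁻¹) * (A * L⁻¹ - A⁻¹ * L) * (A * R⁻¹ - A⁻¹ * R) +
      (L * R * B - (L * R * B)⁻¹) * ((L - L⁻¹) * (A * R⁻¹ - A⁻¹ * R) +
        (R - R⁻¹) * (A * L⁻¹ - A⁻¹ * L)) +
      (L * R * B * A⁻¹ - (L * R * B)⁻¹ * A) * (L - L⁻¹) * (R - R⁻¹) := by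
  field_simp
  ring

private lemma trig (N : ℕ) (n l r b : ℤ) :
    sn N n ^ 2 * sn N (n + b) = sn N (l + r + b + n) * sn N (n - l) * sn N (n - r) +
      sn N (l + r + b) * (sn N l * sn N (n - r) + sn N r * sn N (n - l)) +
      sn N (l + r + b - n) * sn N l * sn N r := by
  have hv := v_ne N
  have key := trigC (A := v N ^ n) (L := v N ^ l) (R := v N ^ r) (B := v N ^ b)
    (zpow_ne_zero _ hv) (zpow_ne_zero _ hv) (zpow_ne_zero _ hv) (zpow_ne_zero _ hv)
  have e : ∀ x : ℤ, v N ^ x - (v N ^ x)⁻¹ = Complex.I * (sn N x : ℝ) := by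
    intro x; rw [← zpow_neg]; exact v_sub_eq N x
  have e2 : ∀ x y : ℤ, v N ^ x * (v N ^ y)⁻¹ - (v N ^ x)⁻¹ * v N ^ y =
      Complex.I * (sn N (x - y) : ℝ) := by
    intro x y
    rw [← e (x - y), zpow_sub₀ hv, div_eq_mul_inv, mul_inv, inv_inv]
  have e3 : v N ^ l * v N ^ r * v N ^ b = v N ^ (l + r + b) := by
    rw [zpow_add₀ hv, zpow_add₀ hv]
  rw [e3, ← zpow_add₀ hv, ← zpow_add₀ hv, e, e, e, e, e, e, e2, e2] at key
  have e4 : v N ^ (l + r + b) * (v N ^ n)⁻¹ - (v N ^ (l + r + b))⁻¹ * v N ^ n =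
      Complex.I * (sn N (l + r + b - n) : ℝ) := e2 _ _
  rw [e4] at key
  have hI : Complex.I ^ 3 ≠ 0 := pow_ne_zero _ Complex.I_ne_zero
  have h2 : Complex.I ^ 3 * (((sn N n ^ 2 * sn N (n + b) : ℝ)) : ℂ) = Complex.I ^ 3 *
      (((sn N (l + r + b + n) * sn N (n - l) * sn N (n - r) +
      sn N (l + r + b) * (sn N l * sn N (n - r) + sn N r * sn N (n - l)) +
      sn N (l + r + b - n) * sn N l * sn N r : ℝ)) : ℂ) := by
    push_cast
    linear_combination key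
  exact_mod_cast mul_left_cancel₀ hI h2

private lemma bb_s (N k : ℕ) : TB.bb N k = ((-(sn N k) ^ 2 : ℝ) : ℂ) := by
  unfold TB.bb sn Pool.Agent.Helper9.TB.sb
  push_cast
  ring_nf

private lemma lam_s (N a b : ℕ) : TB.lam N a - TB.lam N b =
    ((-(sn N ((a : ℤ) + b + 1) * sn N ((a : ℤ) - b)) : ℝ) : ℂ) := by
  unfold TB.lam Pool.Agent.Helper9.TB.lamR sn
  rw [← Complex.ofReal_sub, ← mul_sub, Real.cos_sub_cos]
  congr 1
  have e1 : (Real.pi * ((2 * (a : ℝ) + 1) / N) + Real.pi * ((2 * (b : ℝ) + 1) / N)) / 2 =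
      Real.pi * (((a : ℤ) + b + 1 : ℤ) : ℝ) / N := by push_cast; ring
  have e2 : (Real.pi * ((2 * (a : ℝ) + 1) / N) - Real.pi * ((2 * (b : ℝ) + 1) / N)) / 2 =
      Real.pi * (((a : ℤ) - b : ℤ) : ℝ) / N := by push_cast; ring
  rw [e1, e2]; ring

private lemma bbq_s {N : ℕ} (hN : 2 ≤ N) (x y : ℤ) : TB.bb N 1 * qi N x * qi N y =
    ((-(sn N x * sn N y) : ℝ) : ℂ) := by
  have h1 := bb_s N 1
  have h2 : (sn N ((1 : ℕ) : ℤ) : ℂ) ≠ 0 := by
    exact_mod_cast sn_ne (N := N) (n := 1) (by omega) (by omega)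
  have h3 : TB.bb N 1 = ((-(sn N ((1 : ℕ) : ℤ)) ^ 2 : ℝ) : ℂ) := by
    exact_mod_cast h1
  rw [h3, qi_real, qi_real]
  push_cast at h2 ⊢
  field_simp

/-- the recursion of the weights -/
theorem W_rec {N : ℕ} (hN : 2 ≤ N) {m d l r : ℕ} (hm : m + 1 < N) (hd : d < N) (hlr : l + r ≤ d) :
    TB.bb N (m + 1 : ℕ) * (Wt N (m + 1) l r (d - l - r) (N - 1 - d) : ℂ) =
      (TB.lam N d - TB.lam N m) * (Wt N m l r (d - l - r) (N - 1 - d) : ℂ) +
      TB.bb N d * ((if 1 ≤ l then (Wt N m (l - 1) r (d - l - r) (N - d) : ℂ) else 0) +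
        (if 1 ≤ r then (Wt N m l (r - 1) (d - l - r) (N - d) : ℂ) else 0)) +
      TB.bb N 1 * qi N d * qi N (d - 1) *
        (if 1 ≤ l ∧ 1 ≤ r then (Wt N m (l - 1) (r - 1) (d - l - r) (N + 1 - d) : ℂ) else 0) := by
  obtain ⟨b, rfl⟩ : ∃ b, d = l + r + b := ⟨d - l - r, by omega⟩
  rw [show l + r + b - l - r = b by omega]
  obtain ⟨M, hM⟩ : ∃ M, N = m + 1 + (M + 1) := ⟨N - m - 2, by omega⟩
  set u := N - 1 - (l + r + b) with hu
  have hu1 : N - (l + r + b) = u + 1 := by omega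
  have hu2 : N + 1 - (l + r + b) = u + 2 := by omega
  rw [hu1, hu2]
  have M1 : N - 1 - m = M + 1 := by omega
  have M2 : N - 1 - (m + 1) = M := by omega
  unfold Wt
  rw [M1, M2]
  have a1 := bn_up (N := N) (m := m) (l := l) hm
  have a2 := bn_up' (N := N) (m := m) (l := l) hm
  have a3 := bn_up (N := N) (m := m) (l := r) hm
  have a4 := bn_up' (N := N) (m := m) (l := r) hm
  have a5 := bn_up (N := N) (m := M) (l := b) (by omega)
  have a6 := bn_up (N := N) (m := M) (l := u) (by omega)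
  have a7 := bn_next (N := N) (M := M + 1) (u := u) (by omega)
  have a8 := bn_next (N := N) (M := M + 1) (u := u + 1) (by omega)
  have hNz : (N : ℤ) = m + 1 + (M + 1) := by exact_mod_cast hM
  have huz : (u : ℤ) = N - 1 - (l + r + b) := by omega
  have t := trig N ((m : ℤ) + 1) l r b
  have s1 : sn N (((M : ℕ) : ℤ) + 1) = sn N ((m : ℤ) + 1) := by
    rw [← sn_refl hN]; congr 1; rw [hNz]; ring
  have s2 : sn N ((M : ℤ) + 1 - b) = sn N ((m : ℤ) + 1 + b) := by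
    rw [← sn_refl hN]; congr 1; rw [hNz]; ring
  have s3 : sn N ((M : ℤ) + 1 - u) = sn N ((l : ℤ) + r + b - m) := by
    congr 1; rw [huz, hNz]; ring
  have s4 : sn N ((u : ℤ) + 1) = sn N ((l : ℤ) + r + b) := by
    rw [← sn_refl hN]; congr 1; rw [huz]; ring
  have s5 : sn N (((M + 1 : ℕ) : ℤ) - u) = sn N ((l : ℤ) + r + b - m) := by
    congr 1; rw [huz, hNz]; push_cast; ring
  have s6 : sn N (((u + 1 : ℕ) : ℤ) + 1) = sn N ((l : ℤ) + r + b - 1) := by
    rw [← sn_refl hN]; congr 1; push_cast; rw [huz]; ring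
  have s7 : sn N (((M + 1 : ℕ) : ℤ) - ((u + 1 : ℕ) : ℤ)) = sn N ((l : ℤ) + r + b - (m + 1)) := by
    congr 1; push_cast; rw [huz, hNz]; ring
  rw [s1, s2] at a5
  rw [s1, s3] at a6
  rw [s4, s5] at a7
  rw [s6, s7] at a8
  have hn : sn N ((m : ℤ) + 1) ≠ 0 := by
    have := sn_ne (N := N) (n := m + 1) (by omega) hm
    rwa [show ((m + 1 : ℕ) : ℤ) = (m : ℤ) + 1 by push_cast; ring] at this
  have c1 : (if 1 ≤ l then (((bn N m (l - 1) * bn N m r * bn N (M + 1) b *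
      bn N (M + 1) (u + 1) : ℝ)) : ℂ) else 0) = (((if 1 ≤ l then bn N m (l - 1) else 0) *
      bn N m r * bn N (M + 1) b * bn N (M + 1) (u + 1) : ℝ) : ℂ) := by
    split_ifs <;> simp
  have c2 : (if 1 ≤ r then (((bn N m l * bn N m (r - 1) * bn N (M + 1) b *
      bn N (M + 1) (u + 1) : ℝ)) : ℂ) else 0) = ((bn N m l *
      (if 1 ≤ r then bn N m (r - 1) else 0) * bn N (M + 1) b * bn N (M + 1) (u + 1) : ℝ) : ℂ) := by
    split_ifs <;> simp
  have c3 : (if 1 ≤ l ∧ 1 ≤ r then (((bn N m (l - 1) * bn N m (r - 1) * bn N (M + 1) b *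
      bn N (M + 1) (u + 2) : ℝ)) : ℂ) else 0) = (((if 1 ≤ l then bn N m (l - 1) else 0) *
      (if 1 ≤ r then bn N m (r - 1) else 0) * bn N (M + 1) b * bn N (M + 1) (u + 2) : ℝ) : ℂ) := by
    by_cases h1 : 1 ≤ l <;> by_cases h2 : 1 ≤ r <;> simp [h1, h2]
  rw [c1, c2, c3, bb_s, bb_s, lam_s, bbq_s hN]
  have e1 : sn N (((m + 1 : ℕ) : ℕ) : ℤ) = sn N ((m : ℤ) + 1) := by congr 1
  have e2 : sn N ((l + r + b : ℕ) : ℤ) = sn N ((l : ℤ) + r + b) := by congr 1
  have e3 : sn N (((l + r + b : ℕ) : ℤ) + m + 1) = sn N ((l : ℤ) + r + b + (m + 1)) := by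
    congr 1
  have e4 : sn N (((l + r + b : ℕ) : ℤ) - m) = sn N ((l : ℤ) + r + b - m) := by congr 1
  have e5 : sn N (((l + r + b : ℕ) : ℤ) - 1) = sn N ((l : ℤ) + r + b - 1) := by congr 1
  rw [e1, e2, e3, e4, e5]
  have a8' : bn N (M + 1) (u + 2) * sn N ((l : ℤ) + r + b - 1) =
    bn N (M + 1) (u + 1) * sn N ((l : ℤ) + r + b - (m + 1)) := a8
  have key : -(sn N ((m : ℤ) + 1)) ^ 2 * (bn N (m + 1) l * bn N (m + 1) r * bn N M b * bn N M u) =
      -(sn N ((l : ℤ) + r + b + (m + 1)) * sn N ((l : ℤ) + r + b - m)) *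
        (bn N m l * bn N m r * bn N (M + 1) b * bn N (M + 1) u) +
      -(sn N ((l : ℤ) + r + b)) ^ 2 * ((if 1 ≤ l then bn N m (l - 1) else 0) *
        bn N m r * bn N (M + 1) b * bn N (M + 1) (u + 1) + bn N m l *
        (if 1 ≤ r then bn N m (r - 1) else 0) * bn N (M + 1) b * bn N (M + 1) (u + 1)) +
      -(sn N ((l : ℤ) + r + b) * sn N ((l : ℤ) + r + b - 1)) *
        ((if 1 ≤ l then bn N m (l - 1) else 0) * (if 1 ≤ r then bn N m (r - 1) else 0) *
          bn N (M + 1) b * bn N (M + 1) (u + 2)) := by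
    generalize sn N ((m : ℤ) + 1) = n at *
    generalize sn N ((l : ℤ) + r + b + (m + 1)) = σ at *
    generalize sn N ((l : ℤ) + r + b - (m + 1)) = ε at *
    generalize sn N ((l : ℤ) + r + b - m) = δ at *
    generalize sn N ((l : ℤ) + r + b - 1) = E at *
    generalize sn N ((l : ℤ) + r + b) = D at *
    generalize sn N ((m : ℤ) + 1 - l) = α at *
    generalize sn N ((m : ℤ) + 1 - r) = β at *
    generalize sn N ((m : ℤ) + 1 + b) = sb' at *
    generalize sn N (l : ℤ) = lam at *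
    generalize sn N (r : ℤ) = ρ at *
    generalize (if 1 ≤ l then bn N m (l - 1) else 0) = X at *
    generalize (if 1 ≤ r then bn N m (r - 1) else 0) = X' at *
    generalize bn N (m + 1) l = Q at *
    generalize bn N (m + 1) r = Q' at *
    generalize bn N m l = P at *
    generalize bn N m r = P' at *
    generalize bn N (M + 1) (u + 1) = T1 at *
    generalize bn N (M + 1) (u + 2) = T2 at *
    generalize bn N (M + 1) u = T0 at *
    generalize bn N M u = T' at *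
    generalize bn N (M + 1) b = B at *
    generalize bn N M b = B' at *
    have hz : n ^ 2 * (-n ^ 2 * (Q * Q' * B' * T') + (σ * δ) * (P * P' * B * T0) +
        D ^ 2 * (X * P' * B * T1 + P * X' * B * T1) + (D * E) * (X * X' * B * T2)) = 0 := by
      linear_combination (-Q * Q' * B * T0 * δ) * t + (n ^ 2 * Q * Q' * T0 * δ) * a5 +
        (n ^ 3 * Q * Q' * B') * a6 - (σ * δ * B * T0 * Q' * β + D ^ 2 * B * T1 * Q' * ρ) * a1 -
        (σ * δ * B * T0 * n * P + D ^ 2 * B * T1 * n * X) * a3 -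
        (D ^ 2 * B * T1 * Q' * β + D * E * B * T2 * Q' * ρ) * a2 -
        (D ^ 2 * B * T1 * n * P + D * E * B * T2 * n * X) * a4 +
        (D * B * Q * Q' * (lam * β + α * ρ) + B * ε * Q * Q' * lam * ρ) * a7 +
        (D * B * Q * Q' * lam * ρ) * a8'
    rcases mul_eq_zero.mp hz with h | h
    · exact absurd h (pow_ne_zero _ hn)
    · linear_combination h
  exact_mod_cast key

end Pool.Agent.Helper9.FA
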