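import Pool.Agent.Helper21.FA.LOCB
import Pool.Agent.Helper21.FA.WREC

/-!
# The box rule
-/

namespace Pool.Agent.Helper9.FA

open Finset
open Pool.Agent.Helper9.Kashaev Pool.Agent.Helper9.TG
open Pool.Agent.Helper9 (TB.lam TB.bb TB.sf)

section LOC

variable {M : Type} [AddCommGroup M] [Module ℂ M]

/-- `E` on two strands -/
private noncomputable def E12 (N : ℕ) (G : ℕ → ℕ → M) : ℕ → ℕ → M := fun i j =>
  (ecoef N (i + 1) * v N ^ (wt N j)) • G (i + 1) j + ecoef N (j + 1) • G i (j + 1)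

theorem SG.h21CG {N : ℕ} {G : ℕ → ℕ → M} (hG : SG N G) : SG N (CG N G) := by
  intro i j h
  unfold FA.CG
  rw [hG i j h, h57B_zero (by omega), h57D_zero (by omega)]
  simp

theorem SG.h21UG {N : ℕ} {G : ℕ → ℕ → M} (hG : SG N G) (m : ℕ) : SG N (UG N m G) := by
  induction m with
  | zero => exact hG
  | succ m ih =>
    intro i j h
    show (TB.bb N (m + 1 : ℕ))⁻¹ • (FA.CG N (FA.UG N m G) i j - TB.lam N m • FA.UG N m G i j) = 0
    rw [ih.h21CG i j h, ih i j h]
    simp

theorem SG.h21Z2 {N : ℕ} {G : ℕ → ℕ → M} (hG : SG N G) (x : M →ₗ[ℂ] M) : SG N (Z2 N x G) := by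
  intro i j h
  unfold FA.Z2
  rw [hG i j h, hG (i + 1) j (by omega), hG i (j + 1) (by omega)]
  simp

private lemma E12_CG {N : ℕ} (hN : 2 ≤ N) {G : ℕ → ℕ → M} (hG : SG N G) (i j : ℕ) :
    E12 N (CG N G) i j = CG N (E12 N G) i j := by
  rw [← sub_eq_zero, ← Module.forall_dual_apply_eq_zero_iff ℂ]
  intro φ
  let f : List ℕ → ℂ := fun w => match w with
    | [a, b] => φ (G a b)
    | _ => 0
  have hf : Sup N 2 f := by
    intro w hw
    rcases w with _ | ⟨a, _ | ⟨b, _ | ⟨c, w⟩⟩⟩
    · rfl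
    · rfl
    · show φ (G a b) = 0
      rw [hG a b, map_zero]
      rintro ⟨h1, h2⟩
      apply hw
      refine ⟨rfl, ?_⟩
      intro x hx
      simp only [List.mem_cons, List.not_mem_nil, or_false] at hx
      rcases hx with rfl | rfl
      · exact h1
      · exact h2
    · rfl
  have key := congrFun (Cas_E hN hf) [i, j]
  have hC : ∀ a b, Cas N f [a, b] = h57A N a b * φ (G a b) + h57B N a b * φ (G (a - 1) (b + 1)) +
      h57D N a b * φ (G (a + 1) (b - 1)) := fun a b => h57_Cas_expl N f a b []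
  have hC' : Cas N (Eop N f) [i, j] = h57A N i j * Eop N f [i, j] +
      h57B N i j * Eop N f [i - 1, j + 1] + h57D N i j * Eop N f [i + 1, j - 1] :=
    h57_Cas_expl N (Eop N f) i j []
  have hE : ∀ (g : List ℕ → ℂ) (a b : ℕ), Eop N g [a, b] =
      ecoef N (a + 1) * v N ^ (wt N b) * g [a + 1, b] + ecoef N (b + 1) * g [a, b + 1] := by
    intro g a b
    simp only [Eop, wtl, add_zero, zpow_zero, mul_one]
  rw [hC', hE, hC, hC, hE, hE, hE] at key
  have f1 : ∀ a b, f [a, b] = φ (G a b) := fun _ _ => rfl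
  simp only [f1] at key
  unfold E12 FA.CG
  simp only [map_sub, map_add, map_smul, smul_eq_mul]
  linear_combination key

private lemma Z2_eq (N : ℕ) (x : M →ₗ[ℂ] M) (G : ℕ → ℕ → M) (i j : ℕ) :
    Z2 N x G i j = v N ^ (wt N i + wt N j) • x (G i j) + E12 N G i j := by
  unfold FA.Z2 E12
  rw [add_assoc]

private lemma Z2_CG {N : ℕ} (hN : 2 ≤ N) (x : M →ₗ[ℂ] M) {G : ℕ → ℕ → M} (hG : SG N G) :
    Z2 N x (CG N G) = CG N (Z2 N x G) := by
  funext i j
  rw [Z2_eq, E12_CG hN hG]
  have hB : h57B N i j • (v N ^ (wt N (i - 1) + wt N (j + 1)) • x (G (i - 1) (j + 1))) =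
      v N ^ (wt N i + wt N j) • h57B N i j • x (G (i - 1) (j + 1)) := by
    by_cases h : 1 ≤ i ∧ i < N ∧ j + 1 < N
    · rw [smul_comm]
      congr 2
      unfold wt; push_cast [Nat.cast_sub h.1]; ring
    · rw [h57B_zero h, zero_smul, zero_smul, smul_zero]
  have hD : h57D N i j • (v N ^ (wt N (i + 1) + wt N (j - 1)) • x (G (i + 1) (j - 1))) =
      v N ^ (wt N i + wt N j) • h57D N i j • x (G (i + 1) (j - 1)) := by
    by_cases h : 1 ≤ j ∧ j < N ∧ i + 1 < N
    · rw [smul_comm]
      congr 2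
      unfold wt; push_cast [Nat.cast_sub h.1]; ring
    · rw [h57D_zero h, zero_smul, zero_smul, smul_zero]
  have hA : h57A N i j • (v N ^ (wt N i + wt N j) • x (G i j)) =
      v N ^ (wt N i + wt N j) • h57A N i j • x (G i j) := smul_comm _ _ _
  have h1 : CG N (Z2 N x G) i j = (v N ^ (wt N i + wt N j) • h57A N i j • x (G i j) +
      v N ^ (wt N i + wt N j) • h57B N i j • x (G (i - 1) (j + 1)) +
      v N ^ (wt N i + wt N j) • h57D N i j • x (G (i + 1) (j - 1))) + CG N (E12 N G) i j := by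
    rw [← hA, ← hB, ← hD]
    unfold FA.CG
    rw [Z2_eq, Z2_eq, Z2_eq]
    simp only [smul_add]
    abel
  rw [h1]
  congr 1
  unfold FA.CG
  simp only [map_add, map_smul, smul_add]

private lemma Z2_lin (N : ℕ) (x : M →ₗ[ℂ] M) (a c : ℂ) (A B : ℕ → ℕ → M) :
    Z2 N x (fun i j => a • (A i j - c • B i j)) = fun i j => a • (Z2 N x A i j - c • Z2 N x B i j) := by
  funext i j
  unfold FA.Z2
  simp only [map_sub, map_smul]
  module

private lemma Z1_lin (N : ℕ) (x : M →ₗ[ℂ] M) (a c : ℂ) (A B : ℕ → ℕ → M) :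
    Z1 N x (fun i j => a • (A i j - c • B i j)) = fun i j => a • (Z1 N x A i j - c • Z1 N x B i j) := by
  funext i j
  unfold FA.Z1
  simp only [map_sub, map_smul]
  module

private lemma Z1_it (N : ℕ) (x : M →ₗ[ℂ] M) (a c : ℂ) (A B : ℕ → ℕ → M) (d : ℕ) :
    (Z1 N x)^[d] (fun i j => a • (A i j - c • B i j)) =
      fun i j => a • ((Z1 N x)^[d] A i j - c • (Z1 N x)^[d] B i j) := by
  induction d generalizing A B with
  | zero => rfl
  | succ d ih => rw [Function.iterate_succ_apply, Z1_lin, ih]; rfl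

private lemma Z2_UG {N : ℕ} (hN : 2 ≤ N) (x : M →ₗ[ℂ] M) {G : ℕ → ℕ → M} (hG : SG N G) (m : ℕ) :
    Z2 N x (UG N m G) = UG N m (Z2 N x G) := by
  induction m with
  | zero => rfl
  | succ m ih =>
    have e1 : UG N (m + 1) G = fun i j => (TB.bb N (m + 1 : ℕ))⁻¹ •
      (FA.CG N (FA.UG N m G) i j - TB.lam N m • FA.UG N m G i j) := rfl
    rw [e1, Z2_lin, Z2_CG hN x (hG.h21UG m), ih]
    rfl

omit [Module ℂ M] in
private lemma shiftL (e : ℕ) (f : ℕ → ℕ → M) :
    ∑ l ∈ range (e + 1 + 1), ∑ r ∈ range (e + 1 + 1 - l), (if 1 ≤ l then f l r else 0) =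
      ∑ l ∈ range (e + 1), ∑ r ∈ range (e + 1 - l), f (l + 1) r := by
  rw [sum_range_succ']
  have h0 : ∑ r ∈ range (e + 1 + 1 - 0), (if 1 ≤ 0 then f 0 r else 0) = 0 :=
    sum_eq_zero fun r _ => if_neg (by omega)
  rw [h0, add_zero]
  apply sum_congr rfl
  intro l _
  rw [show e + 1 + 1 - (l + 1) = e + 1 - l by omega]
  apply sum_congr rfl
  intro r _
  rw [if_pos (by omega)]

omit [Module ℂ M] in
private lemma shiftR (e : ℕ) (f : ℕ → ℕ → M) :
    ∑ l ∈ range (e + 1 + 1), ∑ r ∈ range (e + 1 + 1 - l), (if 1 ≤ r then f l r else 0) =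
      ∑ l ∈ range (e + 1), ∑ r ∈ range (e + 1 - l), f l (r + 1) := by
  rw [sum_range_succ]
  have h0 : ∑ r ∈ range (e + 1 + 1 - (e + 1)), (if 1 ≤ r then f (e + 1) r else 0) = 0 := by
    apply sum_eq_zero
    intro r hr
    rw [mem_range] at hr
    exact if_neg (by omega)
  rw [h0, add_zero]
  apply sum_congr rfl
  intro l hl
  rw [mem_range] at hl
  rw [show e + 1 + 1 - l = (e + 1 - l) + 1 by omega, sum_range_succ', if_neg (by omega), add_zero]
  apply sum_congr rfl
  intro r _
  rw [if_pos (by omega)]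

omit [Module ℂ M] in
private lemma shiftLR (e : ℕ) (f : ℕ → ℕ → M) :
    ∑ l ∈ range (e + 2 + 1), ∑ r ∈ range (e + 2 + 1 - l), (if 1 ≤ l ∧ 1 ≤ r then f l r else 0) =
      ∑ l ∈ range (e + 1), ∑ r ∈ range (e + 1 - l), f (l + 1) (r + 1) := by
  have h1 : ∀ l r, (if 1 ≤ l ∧ 1 ≤ r then f l r else 0) =
      if 1 ≤ l then (if 1 ≤ r then f l r else 0) else 0 := by
    intro l r
    split_ifs <;> first | rfl | omega
  simp only [h1]
  rw [shiftL (e + 1) (fun l r => if 1 ≤ r then f l r else 0),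
    shiftR e (fun l r => f (l + 1) r)]

private lemma sf_half {N : ℕ} (hN : 2 ≤ N) : ∀ n : ℕ, n < N →
    TB.sf N n * TB.sf N (N - 1 - n) = TB.sf N (N - 1) := by
  intro n
  induction n with
  | zero => intro _; rw [Pool.Agent.Helper9.TB.sf_zero, one_mul, Nat.sub_zero]
  | succ n ih =>
    intro hn
    have h1 := ih (by omega)
    have e1 : N - 1 - n = (N - 1 - (n + 1)) + 1 := by omega
    rw [e1, Pool.Agent.Helper9.TB.sf_succ] at h1
    rw [Pool.Agent.Helper9.TB.sf_succ, ← h1]
    have e2 : Pool.Agent.Helper9.TB.sb (((n + 1 : ℕ) : ℝ) / N) =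
        Pool.Agent.Helper9.TB.sb (((N - 1 - (n + 1) + 1 : ℕ) : ℝ) / N) := by
      unfold Pool.Agent.Helper9.TB.sb
      have hN0 : (N : ℝ) ≠ 0 := by positivity
      have : Real.pi * (((N - 1 - (n + 1) + 1 : ℕ) : ℝ) / N) =
          Real.pi - Real.pi * (((n + 1 : ℕ) : ℝ) / N) := by
        rw [show N - 1 - (n + 1) + 1 = N - (n + 1) by omega, Nat.cast_sub (by omega)]
        field_simp
      rw [this, Real.sin_pi_sub]
    rw [e2]; ring

private lemma Wt_zero {N : ℕ} (hN : 2 ≤ N) {d l r : ℕ} (hd : d < N) (hlr : l + r ≤ d) :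
    Wt N 0 l r (d - l - r) (N - 1 - d) = if l = 0 ∧ r = 0 then 1 else 0 := by
  unfold Wt
  have hb : ∀ k, bn N 0 k = if k = 0 then 1 else 0 := by
    intro k
    unfold bn
    rcases k with _ | k
    · simp [Pool.Agent.Helper9.TB.sf_zero]
    · rw [if_neg (by omega), if_neg (by omega)]
  rw [hb, hb]
  by_cases h1 : l = 0
  · by_cases h2 : r = 0
    · rw [if_pos h1, if_pos h2, if_pos ⟨h1, h2⟩, h1, h2]
      unfold bn
      rw [Nat.sub_zero, Nat.sub_zero, Nat.sub_zero, if_pos (by omega), if_pos (by omega),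
        show N - 1 - (N - 1 - d) = d by omega]
      have s := sf_half hN d hd
      have f1 : TB.sf N d ≠ 0 := (Pool.Agent.Helper9.TB.sf_pos (by exact_mod_cast hd)).ne'
      have f2 : TB.sf N (N - 1 - d) ≠ 0 :=
        (Pool.Agent.Helper9.TB.sf_pos (by exact_mod_cast (by omega : N - 1 - d < N))).ne'
      rw [← s]
      field_simp
    · rw [if_neg h2, if_neg (show ¬ (l = 0 ∧ r = 0) by tauto)]; ring
  · rw [if_neg h1, if_neg (show ¬ (l = 0 ∧ r = 0) by tauto)]; ring

private lemma bb_ne {N k : ℕ} (h0 : 0 < k) (h1 : k < N) : TB.bb N k ≠ 0 := by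
  unfold TB.bb
  have h2 : 0 < Pool.Agent.Helper9.TB.sb ((k : ℝ) / N) := by
    have hN : (0 : ℝ) < N := by exact_mod_cast (by omega : 0 < N)
    apply Pool.Agent.Helper9.TB.sb_pos
    · have : (0 : ℝ) < k := by exact_mod_cast h0
      positivity
    · rw [div_lt_one hN]; exact_mod_cast h1
  exact_mod_cast (neg_ne_zero.mpr (pow_ne_zero 2 h2.ne'))

/-- the box rule -/
theorem box_loc {N : ℕ} (hN : 2 ≤ N) (x : M →ₗ[ℂ] M) (G : ℕ → ℕ → M) (hG : SG N G) {m d : ℕ}
    (hm : m < N) (hd : d < N) :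
    ((Z1 N x)^[d] (UG N m G)) 0 0 = ∑ l ∈ range (d + 1), ∑ r ∈ range (d + 1 - l),
      (Wt N m l r (d - l - r) (N - 1 - d) : ℂ) •
        (x ^ l) (((Z1 N x)^[d - l - r] ((Z2 N x)^[r] G)) 0 0) := by
  induction m generalizing d G with
  | zero =>
    rw [sum_eq_single 0, sum_eq_single 0]
    · rw [Wt_zero hN hd (by omega), if_pos ⟨rfl, rfl⟩]
      simp only [Complex.ofReal_one, one_smul, pow_zero, Nat.sub_zero]
      rfl
    · intro r hr hr0
      rw [mem_range] at hr
      rw [Wt_zero hN hd (by omega), if_neg (by tauto)]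
      simp
    · intro h; simp at h
    · intro l hl hl0
      rw [mem_range] at hl
      apply sum_eq_zero
      intro r hr
      rw [mem_range] at hr
      rw [Wt_zero hN hd (by omega), if_neg (by tauto)]
      simp
    · intro h; simp at h
  | succ m ih =>
    have hm' : m < N := by omega
    have hZ : SG N (Z2 N x G) := hG.h21Z2 x
    have e1 : UG N (m + 1) G = fun i j => (TB.bb N (m + 1 : ℕ))⁻¹ •
      (FA.CG N (FA.UG N m G) i j - TB.lam N m • FA.UG N m G i j) := rfl
    rw [e1, Z1_it]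
    show (TB.bb N (m + 1 : ℕ))⁻¹ • (((Z1 N x)^[d] (CG N (UG N m G))) 0 0 -
      TB.lam N m • ((Z1 N x)^[d] (UG N m G)) 0 0) = _
    rw [three_term hN x (UG N m G) (hG.h21UG m) hd, Z2_UG hN x hG m]
    set T : ℕ → ℕ → ℕ → M := fun l r b => (x ^ l) (((Z1 N x)^[b] ((Z2 N x)^[r] G)) 0 0) with hT
    have s1 : ((Z1 N x)^[d] (UG N m G)) 0 0 = ∑ l ∈ range (d + 1), ∑ r ∈ range (d + 1 - l),
        (Wt N m l r (d - l - r) (N - 1 - d) : ℂ) • T l r (d - l - r) := ih G hG hm' hd
    have s2 : (if 1 ≤ d then x (((Z1 N x)^[d - 1] (UG N m G)) 0 0) else 0) =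
        ∑ l ∈ range (d + 1), ∑ r ∈ range (d + 1 - l), (if 1 ≤ l then
          (Wt N m (l - 1) r (d - l - r) (N - d) : ℂ) • T l r (d - l - r) else 0) := by
      rcases d with _ | e
      · rw [if_neg (by omega), sum_range_one]
        symm
        exact sum_eq_zero fun r _ => if_neg (by omega)
      · rw [if_pos (by omega), shiftL, Nat.add_sub_cancel, ih G hG hm' (show e < N by omega),
          map_sum]
        apply sum_congr rfl
        intro l _
        rw [map_sum]
        apply sum_congr rfl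
        intro r _
        rw [map_smul, Nat.add_sub_cancel, show e + 1 - (l + 1) - r = e - l - r by omega,
          show N - (e + 1) = N - 1 - e by omega, hT]
        simp only
        rw [pow_succ']
        rfl
    have s3 : (if 1 ≤ d then (((Z1 N x)^[d - 1] (UG N m (Z2 N x G))) 0 0) else 0) =
        ∑ l ∈ range (d + 1), ∑ r ∈ range (d + 1 - l), (if 1 ≤ r then
          (Wt N m l (r - 1) (d - l - r) (N - d) : ℂ) • T l r (d - l - r) else 0) := by
      rcases d with _ | e
      · rw [if_neg (by omega), sum_range_one, Nat.sub_zero, sum_range_one, if_neg (by omega)]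
      · rw [if_pos (by omega), shiftR, Nat.add_sub_cancel, ih (Z2 N x G) hZ hm'
          (show e < N by omega)]
        apply sum_congr rfl
        intro l _
        apply sum_congr rfl
        intro r _
        rw [Nat.add_sub_cancel, show e + 1 - l - (r + 1) = e - l - r by omega,
          show N - (e + 1) = N - 1 - e by omega]
        rfl
    have s4 : (if 2 ≤ d then x (((Z1 N x)^[d - 2] (UG N m (Z2 N x G))) 0 0) else 0) =
        ∑ l ∈ range (d + 1), ∑ r ∈ range (d + 1 - l), (if 1 ≤ l ∧ 1 ≤ r then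
          (Wt N m (l - 1) (r - 1) (d - l - r) (N + 1 - d) : ℂ) • T l r (d - l - r) else 0) := by
      rcases d with _ | _ | e
      · rw [if_neg (by omega), sum_range_one]
        symm
        exact sum_eq_zero fun r _ => if_neg (by omega)
      · rw [if_neg (by omega)]
        symm
        apply sum_eq_zero
        intro l hl
        rw [mem_range] at hl
        apply sum_eq_zero
        intro r hr
        rw [mem_range] at hr
        exact if_neg (by omega)
      · rw [if_pos (by omega), shiftLR, show e + 1 + 1 - 2 = e by omega, ih (Z2 N x G) hZ hm'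
          (show e < N by omega), map_sum]
        apply sum_congr rfl
        intro l _
        rw [map_sum]
        apply sum_congr rfl
        intro r _
        rw [map_smul, Nat.add_sub_cancel, Nat.add_sub_cancel,
          show e + 1 + 1 - (l + 1) - (r + 1) = e - l - r by omega,
          show N + 1 - (e + 1 + 1) = N - 1 - e by omega, hT]
        simp only
        rw [pow_succ']
        rfl
    have hb : TB.bb N (m + 1 : ℕ) ≠ 0 := bb_ne (by omega) hm
    have t2 : (if 1 ≤ d then TB.bb N d • (x (((Z1 N x)^[d - 1] (UG N m G)) 0 0) +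
        ((Z1 N x)^[d - 1] (UG N m (Z2 N x G))) 0 0) else 0) = TB.bb N d •
        ((if 1 ≤ d then x (((Z1 N x)^[d - 1] (UG N m G)) 0 0) else 0) +
        (if 1 ≤ d then (((Z1 N x)^[d - 1] (UG N m (Z2 N x G))) 0 0) else 0)) := by
      split_ifs <;> simp
    have t4 : (if 2 ≤ d then (TB.bb N 1 * qi N d * qi N (d - 1)) •
        x (((Z1 N x)^[d - 2] (UG N m (Z2 N x G))) 0 0) else 0) =
        (TB.bb N 1 * qi N d * qi N (d - 1)) •
        (if 2 ≤ d then x (((Z1 N x)^[d - 2] (UG N m (Z2 N x G))) 0 0) else 0) := by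
      split_ifs <;> simp
    rw [t2, t4, s1, s2, s3, s4, inv_smul_eq_iff₀ hb]
    simp only [smul_sum, smul_add, ← sum_add_distrib, ← sum_sub_distrib]
    apply sum_congr rfl
    intro l hl
    rw [mem_range] at hl
    apply sum_congr rfl
    intro r hr
    rw [mem_range] at hr
    have w := W_rec hN hm hd (show l + r ≤ d by omega)
    have c1 : (if 1 ≤ l then (Wt N m (l - 1) r (d - l - r) (N - d) : ℂ) • T l r (d - l - r) else 0) =
        (if 1 ≤ l then (Wt N m (l - 1) r (d - l - r) (N - d) : ℂ) else 0) • T l r (d - l - r) := by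
      split_ifs <;> simp
    have c2 : (if 1 ≤ r then (Wt N m l (r - 1) (d - l - r) (N - d) : ℂ) • T l r (d - l - r) else 0) =
        (if 1 ≤ r then (Wt N m l (r - 1) (d - l - r) (N - d) : ℂ) else 0) • T l r (d - l - r) := by
      split_ifs <;> simp
    have c3 : (if 1 ≤ l ∧ 1 ≤ r then
          (Wt N m (l - 1) (r - 1) (d - l - r) (N + 1 - d) : ℂ) • T l r (d - l - r) else 0) =
        (if 1 ≤ l ∧ 1 ≤ r then (Wt N m (l - 1) (r - 1) (d - l - r) (N + 1 - d) : ℂ) else 0) •
          T l r (d - l - r) := by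
      split_ifs <;> simp
    rw [c1, c2, c3]
    simp only [smul_smul, ← add_smul, ← sub_smul]
    congr 1
    rw [w]
    ring

end LOC

end Pool.Agent.Helper9.FA
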