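import Pool.Agent.Helper9.FA.Loc
import Pool.Agent.Helper95.FA.LOCA

/-!
# The three term rule
-/

namespace Pool.Agent.Helper9.FA

open Finset
open Pool.Agent.Helper9.Kashaev Pool.Agent.Helper9.TG
open Pool.Agent.Helper9 (TB.lam TB.bb TB.sf)

section LOC

variable {M : Type} [AddCommGroup M] [Module ℂ M]

/-- the coefficients of the expansion in rows -/
private noncomputable def cc (N e j : ℕ) : ℂ :=
  v N ^ (((N : ℤ) - 1 - e + j) * j) * qb N e j * qfac N (e - j) ^ 2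

private theorem Z1_row' {N : ℕ} (hN : 2 ≤ N) (x : M →ₗ[ℂ] M) (G : ℕ → ℕ → M) {e : ℕ} (he : e < N) :
    ((Z1 N x)^[e] G) 0 0 = ∑ j ∈ range (e + 1), cc N e j • (x ^ j) (G (e - j) 0) :=
  Z1_row hN x G he

lemma h21_v2N {N : ℕ} (hN : 2 ≤ N) (x : ℤ) : v N ^ (2 * (N : ℤ) + x) = v N ^ x := by
  rw [zpow_add₀ (v_ne N), two_mul, zpow_add₀ (v_ne N), v_zpow_self hN]; ring

lemma h21_bb {N : ℕ} (hN : 2 ≤ N) (l : ℕ) :
    TB.bb N l = (v N - (v N)⁻¹) ^ 2 * qi N l ^ 2 := by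
  have h3 : TB.bb N l = ((-(sn N l) ^ 2 : ℝ) : ℂ) := by
    unfold TB.bb sn TB.sb
    push_cast
    ring_nf
  have h4 := qi_mul_vd hN (l : ℤ)
  have h5 := v_sub_eq N (l : ℤ)
  rw [h5] at h4
  rw [← mul_pow, mul_comm, h4, h3, mul_pow, Complex.I_sq]
  push_cast
  ring

lemma h21_lam_sub {N : ℕ} (hN : 2 ≤ N) (a b : ℕ) :
    TB.lam N a - TB.lam N b = (v N - (v N)⁻¹) ^ 2 * (qi N ((a : ℤ) + b + 1) * qi N ((a : ℤ) - b)) := by
  rw [← h57_lam hN a, ← h57_lam hN b]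
  have h1 := qi_mul_vd hN ((a : ℤ) + b + 1)
  have h2 := qi_mul_vd hN ((a : ℤ) - b)
  have hv := v_ne N
  have key : (v N - (v N)⁻¹) ^ 2 * (qi N ((a : ℤ) + b + 1) * qi N ((a : ℤ) - b)) =
      (v N ^ ((a : ℤ) + b + 1) - v N ^ (-((a : ℤ) + b + 1))) *
        (v N ^ ((a : ℤ) - b) - v N ^ (-((a : ℤ) - b))) := by
    rw [← h1, ← h2]; ring
  rw [key]
  have e1 : v N ^ ((a : ℤ) + b + 1) * v N ^ ((a : ℤ) - b) = v N ^ (1 + 2 * (a : ℤ)) := by
    rw [← zpow_add₀ hv]; congr 1; ring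
  have e2 : v N ^ ((a : ℤ) + b + 1) * v N ^ (-((a : ℤ) - b)) = v N ^ (1 + 2 * (b : ℤ)) := by
    rw [← zpow_add₀ hv]; congr 1; ring
  have e3 : v N ^ (-((a : ℤ) + b + 1)) * v N ^ ((a : ℤ) - b) = v N ^ (-1 - 2 * (b : ℤ)) := by
    rw [← zpow_add₀ hv]; congr 1; ring
  have e4 : v N ^ (-((a : ℤ) + b + 1)) * v N ^ (-((a : ℤ) - b)) = v N ^ (-1 - 2 * (a : ℤ)) := by
    rw [← zpow_add₀ hv]; congr 1; ring
  linear_combination -e1 + e2 + e3 - e4

/-- the Casimir operator in a row -/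
private lemma CG_row {N : ℕ} (hN : 2 ≤ N) (x : M →ₗ[ℂ] M) (G : ℕ → ℕ → M) {i : ℕ} (hi : i < N) :
    CG N G i 0 = TB.lam N i • G i 0 + if 1 ≤ i then
      ((v N - (v N)⁻¹) ^ 2) • (Z2 N x G (i - 1) 0) -
        ((v N - (v N)⁻¹) ^ 2 * v N ^ (-2 * (i : ℤ))) • x (G (i - 1) 0) else 0 := by
  have hw : wt N 0 = (N : ℤ) - 1 := by unfold wt; push_cast; ring
  have hlam : v N ^ (wt N i + wt N 0 + 1) + v N ^ (-(wt N i + wt N 0) - 1) = TB.lam N i := by
    rw [← h57_lam hN i]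
    congr 1
    · rw [← h21_v2N hN (-1 - 2 * (i : ℤ))]; congr 1; unfold wt; push_cast; ring
    · rw [← h21_v2N hN (-(wt N i + wt N 0) - 1)]; congr 1; unfold wt; push_cast; ring
  unfold CG
  rw [h57D_zero (by omega), zero_smul, add_zero]
  by_cases h : 1 ≤ i
  · rw [if_pos h]
    have hA : h57A N i 0 = (v N - (v N)⁻¹) ^ 2 * (ecoef N i * v N ^ (wt N 0)) + TB.lam N i := by
      unfold h57A
      rw [if_pos ⟨h, hi⟩, if_neg (by omega), hlam]; ring
    have hB : h57B N i 0 = (v N - (v N)⁻¹) ^ 2 * ecoef N 1 := by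
      unfold h57B; rw [if_pos ⟨h, hi⟩]
    have hv : v N ^ (wt N (i - 1) + wt N 0) = v N ^ (-2 * (i : ℤ)) := by
      rw [← h21_v2N hN (-2 * (i : ℤ))]; congr 1; unfold wt; push_cast [Nat.cast_sub h]; ring
    unfold Z2
    rw [hA, hB, hv, show i - 1 + 1 = i by omega]
    simp only [zero_add, smul_add, smul_smul]
    module
  · have h0 : i = 0 := by omega
    rw [if_neg h, h57B_zero (by omega), zero_smul, add_zero, add_zero]
    have hA : h57A N i 0 = TB.lam N i := by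
      unfold h57A
      rw [if_neg (by omega), if_neg (by omega), hlam]; ring
    rw [hA]

private lemma qb1 {N m j : ℕ} (hm : m < N) (hj : j ≤ m) :
    qb N (m + 1) (j + 1) * qi N ((j : ℤ) + 1) = qb N m j * qi N ((m : ℤ) + 1) := by
  have h1 := qb_mul (N := N) (m + 1) (j + 1) (by omega)
  have h2 := qb_mul (N := N) m j hj
  rw [show m + 1 - (j + 1) = m - j by omega, qfac_succ, qfac_succ] at h1
  have f1 : qfac N j ≠ 0 := qfac_ne (by omega)
  have f2 : qfac N (m - j) ≠ 0 := qfac_ne (by omega)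
  have h3 : (qb N (m + 1) (j + 1) * qi N ((j : ℤ) + 1) - qb N m j * qi N ((m : ℤ) + 1)) *
      (qfac N j * qfac N (m - j)) = 0 := by linear_combination h1 - qi N ((m : ℤ) + 1) * h2
  rcases mul_eq_zero.mp h3 with h4 | h4
  · exact sub_eq_zero.mp h4
  · exact absurd h4 (mul_ne_zero f1 f2)

private lemma qb2 {N m j : ℕ} (hm : m < N) (hj : j ≤ m) :
    qb N (m + 1) j * qi N ((m - j : ℕ) + 1) = qb N m j * qi N ((m : ℤ) + 1) := by
  have h1 := qb_mul (N := N) (m + 1) j (by omega)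
  have h2 := qb_mul (N := N) m j hj
  rw [show m + 1 - j = (m - j) + 1 by omega, qfac_succ, qfac_succ] at h1
  have f1 : qfac N j ≠ 0 := qfac_ne (by omega)
  have f2 : qfac N (m - j) ≠ 0 := qfac_ne (by omega)
  have h3 : (qb N (m + 1) j * qi N ((m - j : ℕ) + 1) - qb N m j * qi N ((m : ℤ) + 1)) *
      (qfac N j * qfac N (m - j)) = 0 := by linear_combination h1 - qi N ((m : ℤ) + 1) * h2
  rcases mul_eq_zero.mp h3 with h4 | h4
  · exact sub_eq_zero.mp h4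
  · exact absurd h4 (mul_ne_zero f1 f2)

private lemma ccA {N : ℕ} (hN : 2 ≤ N) {e j : ℕ} (he : e + 1 < N) (hj : j ≤ e) :
    cc N (e + 1) (j + 1) * TB.lam N (e - j : ℕ) - (v N - (v N)⁻¹) ^ 2 * cc N (e + 1) j *
      v N ^ (-2 * ((e - j + 1 : ℕ) : ℤ)) =
    TB.lam N (e + 1 : ℕ) * cc N (e + 1) (j + 1) + TB.bb N (e + 1 : ℕ) * cc N e j := by
  obtain ⟨n, rfl⟩ : ∃ n, e = j + n := ⟨e - j, by omega⟩
  have q1 := qb1 (N := N) (m := j + n) (j := j) (by omega) (by omega)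
  have q2 := qb2 (N := N) (m := j + n) (j := j) (by omega) (by omega)
  rw [show j + n - j = n by omega] at *
  have hv := v_ne N
  have L := h21_lam_sub hN n (j + n + 1)
  have B := h21_bb hN (j + n + 1)
  have f : qfac N (n + 1) = qfac N n * qi N ((n : ℤ) + 1) := qfac_succ N n
  have H := qi_add_mul (N := N) ((j : ℤ) + n + 1) ((n : ℤ) + 1)
  unfold cc
  rw [show j + n + 1 - (j + 1) = n by omega, show j + n + 1 - j = n + 1 by omega,
    show j + n - j = n by omega, f, B]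
  have e1 : v N ^ (((N : ℤ) - 1 - ((j + n + 1 : ℕ) : ℤ) + ((j + 1 : ℕ) : ℤ)) * ((j + 1 : ℕ) : ℤ)) =
      - (v N ^ (((N : ℤ) - 1 - n) * j) * (v N ^ ((n : ℤ) + 1))⁻¹) := by
    have : v N ^ (((N : ℤ) - 1 - ((j + n + 1 : ℕ) : ℤ) + ((j + 1 : ℕ) : ℤ)) * ((j + 1 : ℕ) : ℤ)) =
      v N ^ (((N : ℤ) - 1 - n) * j) * (v N ^ (N : ℤ) * v N ^ (-((n : ℤ) + 1))) := by
      rw [← zpow_add₀ hv, ← zpow_add₀ hv]; congr 1; push_cast; ring
    rw [this, v_zpow_self hN, zpow_neg]; ring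
  have e2 : v N ^ (((N : ℤ) - 1 - ((j + n + 1 : ℕ) : ℤ) + (j : ℤ)) * (j : ℤ)) =
      v N ^ (((N : ℤ) - 1 - n) * j) * (v N ^ (j : ℤ))⁻¹ := by
    rw [← zpow_neg, ← zpow_add₀ hv]; congr 1; push_cast; ring
  have e3 : v N ^ (((N : ℤ) - 1 - ((j + n : ℕ) : ℤ) + (j : ℤ)) * (j : ℤ)) =
      v N ^ (((N : ℤ) - 1 - n) * j) := by
    congr 1; push_cast; ring
  have e4 : v N ^ (-2 * (((n + 1 : ℕ) : ℕ) : ℤ)) = (v N ^ ((n : ℤ) + 1))⁻¹ ^ 2 := by
    rw [← zpow_neg, ← zpow_natCast, ← zpow_mul]; congr 1; push_cast; ring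
  have e5 : v N ^ (-((j : ℤ) + n + 1)) = (v N ^ (j : ℤ))⁻¹ * (v N ^ ((n : ℤ) + 1))⁻¹ := by
    rw [← zpow_neg, ← zpow_neg, ← zpow_add₀ hv]; congr 1; ring
  rw [e5] at H
  rw [e1, e2, e3, e4]
  have g1 : qi N ((n : ℤ) + (j + n + 1 : ℕ) + 1) = qi N ((j : ℤ) + n + 1 + (n + 1)) := by
    congr 1; push_cast; ring
  have g2 : qi N ((n : ℤ) - (j + n + 1 : ℕ)) = - qi N ((j : ℤ) + 1) := by
    rw [← qi_neg]; congr 1; push_cast; ring
  have g3 : qi N (((j + n + 1 : ℕ) : ℤ)) = qi N ((j : ℤ) + n + 1) := by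
    congr 1
  have g4 : qi N (((j + n : ℕ) : ℤ) + 1) = qi N ((j : ℤ) + n + 1) := by
    congr 1
  rw [g1, g2, ← H] at L
  rw [g4] at q1 q2
  rw [g3]
  have hT : v N ^ ((n : ℤ) + 1) * (v N ^ ((n : ℤ) + 1))⁻¹ = 1 :=
    mul_inv_cancel₀ (zpow_ne_zero _ hv)
  have q2' : qb N (j + n + 1) j * qi N ((n : ℤ) + 1) = qb N (j + n) j * qi N ((j : ℤ) + n + 1) := q2
  generalize v N ^ (((N : ℤ) - 1 - n) * j) = V at *
  generalize v N ^ ((n : ℤ) + 1) = T at *
  generalize v N ^ (j : ℤ) = J at *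
  generalize T⁻¹ = T' at *
  generalize J⁻¹ = J' at *
  generalize (v N - (v N)⁻¹) ^ 2 = c at *
  generalize qi N ((j : ℤ) + n + 1) = a at *
  generalize qi N ((n : ℤ) + 1) = b at *
  generalize qi N ((j : ℤ) + 1) = d at *
  generalize qb N (j + n + 1) (j + 1) = Q1 at *
  generalize qb N (j + n + 1) j = Q2 at *
  generalize qb N (j + n) j = Q at *
  generalize qfac N n = F at *
  linear_combination (-(V * T') * Q1 * F ^ 2) * L + (c * V * T' * F ^ 2 * (T * a + J' * T' * b)) * q1 -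
    (c * V * J' * T' ^ 2 * F ^ 2 * b) * q2' + (c * V * F ^ 2 * Q * a ^ 2) * hT

private lemma ccB0 {N : ℕ} (hN : 2 ≤ N) {e : ℕ} :
    (v N - (v N)⁻¹) ^ 2 * cc N (e + 1) 0 = TB.bb N (e + 1 : ℕ) * cc N e 0 := by
  unfold cc
  rw [h21_bb hN, Nat.sub_zero, Nat.sub_zero, qfac_succ, qb_zero_right, qb_zero_right]
  push_cast
  simp only [mul_zero, zpow_zero]
  ring

private lemma ccB1 {N : ℕ} (hN : 2 ≤ N) {e j : ℕ} (he : e + 2 < N) (hj : j ≤ e) :
    (v N - (v N)⁻¹) ^ 2 * cc N (e + 2) (j + 1) = TB.bb N (e + 2 : ℕ) * cc N (e + 1) (j + 1) +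
      TB.bb N 1 * qi N (e + 2 : ℕ) * qi N (e + 1 : ℕ) * cc N e j := by
  obtain ⟨n, rfl⟩ : ∃ n, e = j + n := ⟨e - j, by omega⟩
  have q1 := qb1 (N := N) (m := j + n) (j := j) (by omega) (by omega)
  have q2 := qb2 (N := N) (m := j + n + 1) (j := j + 1) (by omega) (by omega)
  have hv := v_ne N
  have B := h21_bb hN (j + n + 2)
  have B1 := h21_bb hN 1
  have f : qfac N (n + 1) = qfac N n * qi N ((n : ℤ) + 1) := qfac_succ N n
  have H := qi_add_mul (N := N) ((j : ℤ) + 1) ((n : ℤ) + 1)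
  rw [show j + n + 1 - (j + 1) = n by omega] at q2
  unfold cc
  rw [show j + n + 2 - (j + 1) = n + 1 by omega, show j + n + 1 - (j + 1) = n by omega,
    show j + n - j = n by omega, f, B]
  have e1 : v N ^ (((N : ℤ) - 1 - ((j + n + 2 : ℕ) : ℤ) + ((j + 1 : ℕ) : ℤ)) * ((j + 1 : ℕ) : ℤ)) =
      v N ^ (((N : ℤ) - 1 - n) * (j + 1)) * v N ^ (-((j : ℤ) + 1)) := by
    rw [← zpow_add₀ hv]; congr 1; push_cast; ring
  have e2 : v N ^ (((N : ℤ) - 1 - ((j + n + 1 : ℕ) : ℤ) + ((j + 1 : ℕ) : ℤ)) * ((j + 1 : ℕ) : ℤ)) =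
      v N ^ (((N : ℤ) - 1 - n) * (j + 1)) := by
    congr 1; push_cast; ring
  have e3 : v N ^ (((N : ℤ) - 1 - ((j + n : ℕ) : ℤ) + (j : ℤ)) * (j : ℤ)) =
      - (v N ^ (((N : ℤ) - 1 - n) * (j + 1)) * v N ^ ((n : ℤ) + 1)) := by
    have : v N ^ (((N : ℤ) - 1 - ((j + n : ℕ) : ℤ) + (j : ℤ)) * (j : ℤ)) * v N ^ (N : ℤ) =
      v N ^ (((N : ℤ) - 1 - n) * (j + 1)) * v N ^ ((n : ℤ) + 1) := by
      rw [← zpow_add₀ hv, ← zpow_add₀ hv]; congr 1; push_cast; ring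
    rw [v_zpow_self hN] at this
    linear_combination -this
  rw [e1, e2, e3]
  have g1 : qi N ((j + n + 2 : ℕ) : ℤ) = qi N ((j : ℤ) + 1 + (n + 1)) := by
    congr 1; push_cast; ring
  have g2 : qi N (((j + n + 1 : ℕ) : ℤ) + 1) = qi N ((j : ℤ) + 1 + (n + 1)) := by
    congr 1; push_cast; ring
  have g3 : qi N ((j + n + 1 : ℕ) : ℤ) = qi N ((j : ℤ) + n + 1) := by
    congr 1
  have g4 : qi N (((j + n : ℕ) : ℤ) + 1) = qi N ((j : ℤ) + n + 1) := by
    congr 1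
  have g5 : TB.bb N 1 = (v N - (v N)⁻¹) ^ 2 := by
    rw [B1]; rw [show ((1 : ℕ) : ℤ) = 1 from rfl, qi_one hN]; ring
  rw [g4] at q1
  rw [g2] at q2
  rw [g1, g3, g5]
  have q2' : qb N (j + n + 2) (j + 1) * qi N ((n : ℤ) + 1) =
    qb N (j + n + 1) (j + 1) * qi N ((j : ℤ) + 1 + (n + 1)) := q2
  generalize v N ^ (((N : ℤ) - 1 - n) * (j + 1)) = V at *
  generalize v N ^ ((n : ℤ) + 1) = T at *
  generalize v N ^ (-((j : ℤ) + 1)) = J' at *
  generalize (v N - (v N)⁻¹) ^ 2 = c at *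
  generalize qi N ((j : ℤ) + n + 1) = a at *
  generalize qi N ((n : ℤ) + 1) = b at *
  generalize qi N ((j : ℤ) + 1) = d at *
  generalize qi N ((j : ℤ) + 1 + (n + 1)) = S at *
  generalize qb N (j + n + 2) (j + 1) = Q2 at *
  generalize qb N (j + n + 1) (j + 1) = Q1 at *
  generalize qb N (j + n) j = Q at *
  generalize qfac N n = F at *
  linear_combination (c * V * J' * F ^ 2 * b) * q2' + (c * S * V * F ^ 2 * Q1) * H -
    (c * S * V * T * F ^ 2) * q1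

/-- the three term rule -/
theorem three_term {N : ℕ} (hN : 2 ≤ N) (x : M →ₗ[ℂ] M) (G : ℕ → ℕ → M) (hG : SG N G) {d : ℕ}
    (hd : d < N) :
    ((Z1 N x)^[d] (CG N G)) 0 0 = TB.lam N d • ((Z1 N x)^[d] G) 0 0 +
      (if 1 ≤ d then TB.bb N d • (x (((Z1 N x)^[d - 1] G) 0 0) +
        ((Z1 N x)^[d - 1] (Z2 N x G)) 0 0) else 0) +
      (if 2 ≤ d then (TB.bb N 1 * qi N d * qi N (d - 1)) •
        x (((Z1 N x)^[d - 2] (Z2 N x G)) 0 0) else 0) := by
  rcases d with _ | e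
  · rw [if_neg (by omega), if_neg (by omega), add_zero, add_zero]
    have := CG_row hN x G (i := 0) (by omega)
    rw [if_neg (by omega), add_zero] at this
    exact this
  rw [if_pos (by omega), Nat.add_sub_cancel, Z1_row' hN x (CG N G) hd, Z1_row' hN x G hd,
    Z1_row' hN x G (show e < N by omega), Z1_row' hN x (Z2 N x G) (show e < N by omega)]
  have hL : ∑ j ∈ range (e + 1 + 1), cc N (e + 1) j • (x ^ j) (CG N G (e + 1 - j) 0) =
      (∑ j ∈ range (e + 1 + 1), (cc N (e + 1) j * TB.lam N (e + 1 - j : ℕ)) •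
        (x ^ j) (G (e + 1 - j) 0)) +
      (∑ j ∈ range (e + 1), ((v N - (v N)⁻¹) ^ 2 * cc N (e + 1) j) •
        (x ^ j) (Z2 N x G (e - j) 0)) -
      ∑ j ∈ range (e + 1), ((v N - (v N)⁻¹) ^ 2 * cc N (e + 1) j *
        v N ^ (-2 * ((e - j + 1 : ℕ) : ℤ))) • (x ^ (j + 1)) (G (e - j) 0) := by
    rw [sum_range_succ, sum_range_succ _ (e + 1), add_sub_assoc, ← sum_sub_distrib]
    have h0 : ∀ j ∈ range (e + 1), cc N (e + 1) j • (x ^ j) (CG N G (e + 1 - j) 0) =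
        (cc N (e + 1) j * TB.lam N (e + 1 - j : ℕ)) • (x ^ j) (G (e + 1 - j) 0) +
        (((v N - (v N)⁻¹) ^ 2 * cc N (e + 1) j) • (x ^ j) (Z2 N x G (e - j) 0) -
        ((v N - (v N)⁻¹) ^ 2 * cc N (e + 1) j *
        v N ^ (-2 * ((e - j + 1 : ℕ) : ℤ))) • (x ^ (j + 1)) (G (e - j) 0)) := by
      intro j hj
      rw [mem_range] at hj
      have h1 := CG_row hN x G (i := e + 1 - j) (by omega)
      rw [if_pos (by omega), show e + 1 - j - 1 = e - j by omega] at h1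
      rw [h1, pow_succ x j, show e - j + 1 = e + 1 - j by omega]
      simp only [map_add, map_sub, map_smul, Module.End.mul_apply]
      module
    rw [sum_congr rfl h0, sum_add_distrib]
    have h2 := CG_row hN x G (i := e + 1 - (e + 1)) (by omega)
    rw [if_neg (by omega), add_zero] at h2
    rw [h2, map_smul, smul_smul]
    abel
  have hG1 : ∑ j ∈ range (e + 1 + 1), (cc N (e + 1) j * TB.lam N (e + 1 - j : ℕ)) •
        (x ^ j) (G (e + 1 - j) 0) = (∑ j ∈ range (e + 1), (cc N (e + 1) (j + 1) *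
        TB.lam N (e - j : ℕ)) • (x ^ (j + 1)) (G (e - j) 0)) +
        (TB.lam N (e + 1 : ℕ) * cc N (e + 1) 0) • G (e + 1) 0 := by
    rw [sum_range_succ']
    congr 1
    · apply sum_congr rfl
      intro j _
      rw [show e + 1 - (j + 1) = e - j by omega]
    · rw [Nat.sub_zero, pow_zero, mul_comm]; rfl
  have hG2 : ∑ j ∈ range (e + 1 + 1), cc N (e + 1) j • (x ^ j) (G (e + 1 - j) 0) =
        (∑ j ∈ range (e + 1), cc N (e + 1) (j + 1) • (x ^ (j + 1)) (G (e - j) 0)) +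
        cc N (e + 1) 0 • G (e + 1) 0 := by
    rw [sum_range_succ']
    congr 1
    · apply sum_congr rfl
      intro j _
      rw [show e + 1 - (j + 1) = e - j by omega]
  have hG3 : x (∑ j ∈ range (e + 1), cc N e j • (x ^ j) (G (e - j) 0)) =
      ∑ j ∈ range (e + 1), cc N e j • (x ^ (j + 1)) (G (e - j) 0) := by
    rw [map_sum]
    apply sum_congr rfl
    intro j _
    rw [map_smul, pow_succ']; rfl
  have hM : ∑ j ∈ range (e + 1), (cc N (e + 1) (j + 1) * TB.lam N (e - j : ℕ)) •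
        (x ^ (j + 1)) (G (e - j) 0) - ∑ j ∈ range (e + 1), ((v N - (v N)⁻¹) ^ 2 * cc N (e + 1) j *
        v N ^ (-2 * ((e - j + 1 : ℕ) : ℤ))) • (x ^ (j + 1)) (G (e - j) 0) =
      TB.lam N (e + 1 : ℕ) • (∑ j ∈ range (e + 1), cc N (e + 1) (j + 1) •
        (x ^ (j + 1)) (G (e - j) 0)) + TB.bb N (e + 1 : ℕ) •
      ∑ j ∈ range (e + 1), cc N e j • (x ^ (j + 1)) (G (e - j) 0) := by
    rw [smul_sum, smul_sum, ← sum_sub_distrib, ← sum_add_distrib]
    apply sum_congr rfl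
    intro j hj
    rw [mem_range] at hj
    rw [smul_smul, smul_smul, ← sub_smul, ← add_smul, ccA hN hd (show j ≤ e by omega)]
  have hZ : ∑ j ∈ range (e + 1), ((v N - (v N)⁻¹) ^ 2 * cc N (e + 1) j) •
        (x ^ j) (Z2 N x G (e - j) 0) =
      TB.bb N (e + 1 : ℕ) • (∑ j ∈ range (e + 1), cc N e j • (x ^ j) (Z2 N x G (e - j) 0)) +
      if 2 ≤ e + 1 then (TB.bb N 1 * qi N (e + 1 : ℕ) * qi N (e + 1 - 1 : ℕ)) •
        x (((Z1 N x)^[e + 1 - 2] (Z2 N x G)) 0 0) else 0 := by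
    rcases e with _ | e
    · rw [if_neg (by omega), add_zero, sum_range_one, sum_range_one, smul_smul, ccB0 hN]
    · rw [if_pos (by omega), show e + 1 + 1 - 2 = e by omega, Z1_row' hN x (Z2 N x G)
        (show e < N by omega), sum_range_succ', sum_range_succ' (fun j => cc N (e + 1) j •
        (x ^ j) (Z2 N x G (e + 1 - j) 0)), smul_add, smul_smul, ccB0 hN, map_sum, smul_sum,
        smul_sum]
      have hs : ∑ j ∈ range (e + 1), ((v N - (v N)⁻¹) ^ 2 * cc N (e + 1 + 1) (j + 1)) •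
          (x ^ (j + 1)) (Z2 N x G (e + 1 - (j + 1)) 0) =
          ∑ j ∈ range (e + 1), TB.bb N (e + 1 + 1 : ℕ) • cc N (e + 1) (j + 1) • (x ^ (j + 1))
            (Z2 N x G (e + 1 - (j + 1)) 0) +
          ∑ j ∈ range (e + 1), (TB.bb N 1 * qi N (e + 1 + 1 : ℕ) * qi N (e + 1 + 1 - 1 : ℕ)) •
            x (cc N e j • (x ^ j) (Z2 N x G (e - j) 0)) := by
        rw [← sum_add_distrib]
        apply sum_congr rfl
        intro j hj
        rw [mem_range] at hj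
        rw [show e + 1 - (j + 1) = e - j by omega, map_smul, smul_smul, smul_smul,
          ccB1 hN (show e + 2 < N by omega) (show j ≤ e by omega), add_smul]
        congr 1
        rw [pow_succ' x j]; rfl
      rw [hs]
      abel
  rw [hL, hG1, hG2, hG3, hZ]
  have e1 : ((e + 1 - 1 : ℕ) : ℤ) = ((e + 1 : ℕ) : ℤ) - 1 := by push_cast; ring
  rw [e1, smul_add, smul_add, smul_smul, add_sub_right_comm, add_sub_right_comm, hM]
  abel

end LOC

end Pool.Agent.Helper9.FA
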